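import Pool.Agent.H15.IX.TG

/-!
# idx_modules, row COA
-/

set_option autoImplicit false

open Finset Pool.Agent.H15.IX
open MvPolynomial Pool.Agent.H13.RE Pool.Agent.H17.IQ

namespace Pool.Agent.H14.IX

universe u

/-- roots of unity come from an algebraically closed field -/
theorem root_one {k Ω : Type u} [Field k] [IsAlgClosed k] [Field Ω] (φ : k →+* Ω) {z : Ω}
    {m : ℕ} (hm : 0 < m) (hz : z ^ m = 1) : ∃ c : k, φ c = z := by
  let _ : Algebra k Ω := φ.toAlgebra
  have h1 : IsIntegral k z := IsIntegral.of_pow hm (by rw [hz]; exact isIntegral_one)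
  have h2 := IsAlgClosed.degree_eq_one_of_irreducible k (minpoly.irreducible h1)
  exact minpoly.mem_range_of_degree_eq_one k z h2

/-- the degree of a radical extension divides the exponent -/
theorem adj_deg {k E Ω : Type u} [Field k] [IsAlgClosed k] [Field E] [CharZero E]
    [Field Ω] [Algebra E Ω] [IsAlgClosed Ω] (φ : k →+* E) {m : ℕ} (hm : 0 < m) {s : Ω}
    (hs0 : s ≠ 0) {c : E} (hs : s ^ m = algebraMap E Ω c) :
    FiniteDimensional E (IntermediateField.adjoin E {s}) ∧
    Module.finrank E (IntermediateField.adjoin E {s}) ∣ m := by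
  have hsi : IsIntegral E s := IsIntegral.of_pow hm (by rw [hs]; exact isIntegral_algebraMap)
  set L : IntermediateField E Ω := IntermediateField.adjoin E {s} with hL
  have _ : FiniteDimensional E L := IntermediateField.adjoin.finiteDimensional hsi
  refine ⟨inferInstance, ?_⟩
  have hsL : s ∈ L := IntermediateField.mem_adjoin_simple_self E s
  set d := Module.finrank E L with hd
  have hd0 : 0 < d := Module.finrank_pos
  set M : Subfield Ω := (algebraMap E Ω).fieldRange with hM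
  have hkM : ∀ x : k, algebraMap E Ω (φ x) ∈ M := fun x => ⟨φ x, rfl⟩
  have hsm : s ^ m ∈ M := ⟨c, hs.symm⟩
  have hsd : s ^ d ∈ M := by
    have h1 := Algebra.norm_eq_prod_embeddings E Ω (⟨s, hsL⟩ : L)
    have h2 : ∀ σ : L →ₐ[E] Ω, ∃ x : k, σ ⟨s, hsL⟩ = algebraMap E Ω (φ x) * s := by
      intro σ
      have h3 : (σ ⟨s, hsL⟩) ^ m = s ^ m := by
        have h4 : (⟨s, hsL⟩ : L) ^ m = algebraMap E L c := by
          apply Subtype.ext
          exact hs
        rw [← map_pow, h4, AlgHom.commutes, hs]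
      have h5 : (σ ⟨s, hsL⟩ / s) ^ m = 1 := by
        rw [div_pow, h3, div_self (pow_ne_zero _ hs0)]
      obtain ⟨x, hx⟩ := root_one ((algebraMap E Ω).comp φ) hm h5
      refine ⟨x, ?_⟩
      rw [RingHom.comp_apply] at hx
      rw [hx, div_mul_cancel₀ _ hs0]
    choose x hx using h2
    rw [Finset.prod_congr rfl fun σ _ => hx σ, Finset.prod_mul_distrib, Finset.prod_const,
      Finset.card_univ, AlgHom.card] at h1
    have h6 : (∏ σ : L →ₐ[E] Ω, algebraMap E Ω (φ (x σ))) ∈ M :=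
      Subfield.prod_mem M fun σ _ => hkM _
    have h7 : (∏ σ : L →ₐ[E] Ω, algebraMap E Ω (φ (x σ))) ≠ 0 := by
      rw [Finset.prod_ne_zero_iff]
      intro σ _ h8
      have h9 := hx σ
      rw [h8, zero_mul] at h9
      have h10 : (⟨s, hsL⟩ : L) = 0 := (map_eq_zero σ).1 h9
      exact hs0 (congrArg Subtype.val h10)
    have h8 : s ^ d = (∏ σ : L →ₐ[E] Ω, algebraMap E Ω (φ (x σ)))⁻¹ *
        algebraMap E Ω (Algebra.norm E (⟨s, hsL⟩ : L)) := by
      rw [h1, ← mul_assoc, inv_mul_cancel₀ h7, one_mul]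
    rw [h8]
    exact M.mul_mem (M.inv_mem h6) ⟨_, rfl⟩
  have hse : s ^ Nat.gcd d m ∈ M := by
    have h1 : (s ^ Nat.gcd d m : Ω) = (s ^ d) ^ (Nat.gcdA d m) * (s ^ m) ^ (Nat.gcdB d m) := by
      rw [← zpow_natCast, ← zpow_natCast, ← zpow_natCast, ← zpow_mul, ← zpow_mul,
        ← zpow_add₀ hs0, Nat.gcd_eq_gcd_ab]
    rw [h1]
    exact M.mul_mem (zpow_mem hsd _) (zpow_mem hsm _)
  obtain ⟨y, hy⟩ := hse
  have he0 : 0 < Nat.gcd d m := Nat.gcd_pos_of_pos_left _ hd0
  have h1 : (minpoly E s) ∣ Polynomial.X ^ (Nat.gcd d m) - Polynomial.C y := by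
    refine minpoly.dvd E s ?_
    rw [map_sub, map_pow, Polynomial.aeval_X, Polynomial.aeval_C, sub_eq_zero]
    exact hy.symm
  have h2 := Polynomial.natDegree_le_of_dvd h1 (Polynomial.X_pow_sub_C_ne_zero he0 _)
  rw [Polynomial.natDegree_X_pow_sub_C] at h2
  have h3 : d = (minpoly E s).natDegree := IntermediateField.adjoin.finrank hsi
  rw [← h3] at h2
  have h4 : Nat.gcd d m = d := le_antisymm (Nat.le_of_dvd hd0 (Nat.gcd_dvd_left _ _)) h2
  exact h4 ▸ Nat.gcd_dvd_right d m

theorem pf_COA (hCOB : T_COB.{u}) : T_COA.{u} := by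
  intro k E _ _ _ _ _ _ n s p d F x y hp hd hF hsum hx hy hFx hFy
  obtain ⟨u, a, m₁, m', hm₁, hm', hu, ⟨c, hc⟩, hRE⟩ :=
    hCOB k E n s p d F x y hp hd hF hsum hx hy hFx hFy
  set φ : k →+* E := (algebraMap (LaurentSeries k) E).comp HahnSeries.C with hφ
  have _ : CharZero E := charZero_of_injective_ringHom φ.injective
  have hm0 : 0 < m' := Nat.pos_of_ne_zero fun h => hm' (h ▸ dvd_zero p)
  have hm10 : 0 < m₁ := Nat.pos_of_ne_zero fun h => hm₁ (h ▸ dvd_zero p)
  have hu0 : u ≠ 0 := by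
    rintro rfl
    rw [zero_pow (Nat.mul_pos (Nat.mul_pos (pow_pos hp.pos a) hm10) hm0).ne'] at hu
    have h1 : (HahnSeries.single (1 : ℤ) (1 : k) : LaurentSeries k) = 0 :=
      (algebraMap (LaurentSeries k) E).injective
        ((algebraMap E (AlgebraicClosure E)).injective (by rw [map_zero, map_zero]; exact hu.symm))
    exact one_ne_zero (HahnSeries.single_eq_zero_iff.1 h1)
  obtain ⟨hfd, hdvd⟩ := adj_deg φ hm0 hu0 hc
  exact ⟨IntermediateField.adjoin E {u}, inferInstance, inferInstance, hfd,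
    fun h => hm' (h.trans hdvd), hRE⟩

end Pool.Agent.H14.IX
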