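import Pool.Agent.H14.IX.COA
import Pool.Agent.H86.IX.CYC

/-!
# idx_modules, row COB
-/

set_option autoImplicit false

open Finset Pool.Agent.H15.IX
open MvPolynomial Pool.Agent.H13.RE Pool.Agent.H17.IQ

namespace Pool.Agent.H14.IX

universe u

/-- descent to a finite extension -/
theorem desc {K E : Type u} [Field K] [Field E] [Algebra K E] [Algebra.IsAlgebraic K E]
    {n s : ℕ} (d : Fin s → ℕ) (F : Fin s → MvPolynomial (Fin (n + 1)) E)
    (x y : Fin (n + 1) → E) (hF : ∀ l, (F l).IsHomogeneous (d l)) :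
    ∃ (E1 : IntermediateField K E) (_ : FiniteDimensional K E1)
      (F1 : Fin s → MvPolynomial (Fin (n + 1)) E1) (x1 y1 : Fin (n + 1) → E1),
      (∀ l, (F1 l).IsHomogeneous (d l)) ∧ (∀ l, map (algebraMap E1 E) (F1 l) = F l) ∧
      (∀ v, algebraMap E1 E (x1 v) = x v) ∧ (∀ v, algebraMap E1 E (y1 v) = y v) := by
  classical
  set T : Finset E := (univ.biUnion fun l => (F l).coeffs) ∪ univ.image x ∪ univ.image y with hT
  set E1 : IntermediateField K E := IntermediateField.adjoin K (T : Set E) with hE1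
  have hfd : FiniteDimensional K E1 := IntermediateField.finiteDimensional_adjoin
    fun z _ => (Algebra.IsAlgebraic.isAlgebraic z).isIntegral
  have hTE : ∀ z ∈ T, z ∈ E1 := fun z hz => IntermediateField.subset_adjoin K _ hz
  have hF1 : ∀ l, ∃ G : MvPolynomial (Fin (n + 1)) E1, map (algebraMap E1 E) G = F l := by
    intro l
    have h1 : F l ∈ Set.range (map (σ := Fin (n + 1)) (algebraMap E1 E)) := by
      rw [mem_range_map_iff_coeffs_subset]
      intro z hz
      refine ⟨⟨z, hTE z ?_⟩, rfl⟩
      rw [hT]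
      simp only [mem_union, mem_biUnion, mem_univ, true_and]
      exact Or.inl (Or.inl ⟨l, hz⟩)
    exact h1
  choose F1 hF1 using hF1
  refine ⟨E1, hfd, F1, fun v => ⟨x v, hTE _ ?_⟩, fun v => ⟨y v, hTE _ ?_⟩, fun l => ?_, hF1,
    fun v => rfl, fun v => rfl⟩
  · rw [hT]
    simp
  · rw [hT]
    simp
  · have h1 := hF l
    rw [← hF1 l] at h1
    exact h1.of_map (algebraMap E1 E).injective

/-- the image of a finite extension of `k((t))` is generated by the image of the root of `t` -/
theorem gen {k L Ω : Type u} [Field k] [Field L] [Field Ω] [Algebra (LaurentSeries k) L]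
    (e : L ≃+* LaurentSeries k) (N : ℕ)
    (hb : ∀ b : PowerSeries k, ∃ c : ℕ → PowerSeries k, e.symm (b : LaurentSeries k) =
      ∑ i ∈ range N, e.symm (HahnSeries.single 1 1) ^ i *
        algebraMap (LaurentSeries k) L (c i : LaurentSeries k))
    (σ : L →+* Ω) (M : Subfield Ω) (h1 : σ (e.symm (HahnSeries.single 1 1)) ∈ M)
    (h2 : ∀ c : LaurentSeries k, σ (algebraMap (LaurentSeries k) L c) ∈ M) (z : L) :
    σ z ∈ M := by
  obtain ⟨c, hc⟩ := hb (e z).powerSeriesPart
  have h3 : z = e.symm (HahnSeries.single 1 1) ^ (e z).order *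
      e.symm ((e z).powerSeriesPart : LaurentSeries k) := by
    rw [← map_zpow₀, ← map_mul, RingEquiv.eq_symm_apply, ← RatFunc.single_zpow]
    exact (LaurentSeries.single_order_mul_powerSeriesPart (e z)).symm
  rw [h3, hc, map_mul, map_zpow₀, map_sum]
  refine M.mul_mem (zpow_mem h1 _) (M.sum_mem fun i _ => ?_)
  rw [map_mul, map_pow]
  exact M.mul_mem (M.pow_mem h1 i) (h2 _)

theorem pf_COB (hCOF : T_COF.{u}) (hPUI : T_PUI.{u}) : T_COB.{u} := by
  intro k E _ _ _ _ _ _ n s p d F x y hp hd hF hsum hx hy hFx hFy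
  obtain ⟨E1, hfd1, F1, x1, y1, hF1, hFm, hxm, hym⟩ :=
    desc (K := LaurentSeries k) d F x y hF
  obtain ⟨e1, he1, -⟩ := hPUI k E1
  set m := Module.finrank (LaurentSeries k) E1 with hm
  have hm0 : 0 < m := Module.finrank_pos
  have hinj : Function.Injective (algebraMap E1 E) := (algebraMap E1 E).injective
  have hx1 : x1 ≠ 0 := by
    rintro rfl
    refine hx (funext fun v => ?_)
    rw [← hxm v, Pi.zero_apply, Pi.zero_apply, map_zero]
  have hy1 : y1 ≠ 0 := by
    rintro rfl
    refine hy (funext fun v => ?_)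
    rw [← hym v, Pi.zero_apply, Pi.zero_apply, map_zero]
  have hFx1 : ∀ l, eval x1 (F1 l) = 0 := by
    intro l
    refine hinj ?_
    rw [map_zero, MvPolynomial.map_eval, hFm l]
    rw [show (algebraMap E1 E) ∘ x1 = x from funext hxm]
    exact hFx l
  have hFy1 : ∀ l, eval y1 (F1 l) = 0 := by
    intro l
    refine hinj ?_
    rw [map_zero, MvPolynomial.map_eval, hFm l]
    rw [show (algebraMap E1 E) ∘ y1 = y from funext hym]
    exact hFy l
  obtain ⟨K', hK', hA', hfd', hpm', hRE⟩ := hCOF k E1 e1 n s p d F1 x1 y1 hp hd hF1 hsum hx1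
    hy1 hFx1 hFy1
  set m' := Module.finrank E1 K' with hm'
  have hm'0 : 0 < m' := Module.finrank_pos
  let _ : Algebra (LaurentSeries k) K' :=
    ((algebraMap E1 K').comp (algebraMap (LaurentSeries k) E1)).toAlgebra
  have hst : IsScalarTower (LaurentSeries k) E1 K' :=
    IsScalarTower.of_algebraMap_eq fun _ => rfl
  have hfd2 : FiniteDimensional (LaurentSeries k) K' := Module.Finite.trans E1 K'
  obtain ⟨e2, he2, hb2⟩ := hPUI k K'
  have hmm : Module.finrank (LaurentSeries k) K' = m * m' :=
    (Module.finrank_mul_finrank (LaurentSeries k) E1 K').symm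
  rw [hmm] at he2 hb2
  set t : LaurentSeries k := HahnSeries.single 1 1 with ht
  have ht0 : t ≠ 0 := fun h => one_ne_zero (HahnSeries.single_eq_zero_iff.1 h)
  set u0 : K' := e2.symm t with hu0
  set s1 : E1 := e1.symm t with hs1
  have hu0m : u0 ^ (m * m') = algebraMap (LaurentSeries k) K' t := by
    rw [hu0, ← map_pow, ← he2, RingEquiv.symm_apply_apply]
  have hs1m : s1 ^ m = algebraMap (LaurentSeries k) E1 t := by
    rw [hs1, ← map_pow, ← he1, RingEquiv.symm_apply_apply]
  have hs10 : s1 ≠ 0 := by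
    intro h
    rw [h, zero_pow hm0.ne'] at hs1m
    exact ht0 ((algebraMap (LaurentSeries k) E1).injective (by rw [map_zero]; exact hs1m.symm))
  have hs1K : algebraMap E1 K' s1 ≠ 0 := fun h => hs10 ((algebraMap E1 K').injective (by
    rw [h, map_zero]))
  obtain ⟨c1, hc1⟩ : ∃ c1 : E1, u0 ^ m' = algebraMap E1 K' c1 := by
    have h1 : (u0 ^ m' / algebraMap E1 K' s1) ^ m = 1 := by
      rw [div_pow, ← pow_mul, mul_comm m' m, hu0m, ← map_pow, hs1m,
        ← IsScalarTower.algebraMap_apply (LaurentSeries k) E1 K', div_self]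
      intro h
      exact ht0 ((algebraMap (LaurentSeries k) K').injective (by rw [map_zero]; exact h))
    obtain ⟨ζ, hζ⟩ := root_one ((algebraMap (LaurentSeries k) K').comp HahnSeries.C) hm0 h1
    refine ⟨algebraMap (LaurentSeries k) E1 (HahnSeries.C ζ) * s1, ?_⟩
    rw [map_mul, ← IsScalarTower.algebraMap_apply (LaurentSeries k) E1 K']
    rw [RingHom.comp_apply] at hζ
    rw [hζ, div_mul_cancel₀ _ hs1K]
  have halg : Algebra.IsAlgebraic E1 K' := Algebra.IsAlgebraic.of_finite E1 K'
  obtain ⟨σ⟩ : Nonempty (K' →ₐ[E1] AlgebraicClosure E) := ⟨IsAlgClosed.lift⟩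
  have hσ1 : ∀ z : E1, σ (algebraMap E1 K' z) =
      algebraMap E (AlgebraicClosure E) (algebraMap E1 E z) := by
    intro z
    rw [AlgHom.commutes]
    rfl
  have hσ2 : ∀ c : LaurentSeries k, σ (algebraMap (LaurentSeries k) K' c) =
      algebraMap E (AlgebraicClosure E) (algebraMap (LaurentSeries k) E c) := by
    intro c
    rw [IsScalarTower.algebraMap_apply (LaurentSeries k) E1 K', hσ1]
    rfl
  obtain ⟨a, m₁, hpm₁, hmeq⟩ := Nat.exists_eq_pow_mul_and_not_dvd hm0.ne' p hp.ne_one
  have hmem : ∀ z : K', σ z ∈ IntermediateField.adjoin E {σ u0} := by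
    intro z
    exact gen e2 (m * m') hb2 σ.toRingHom (IntermediateField.adjoin E {σ u0}).toSubfield
      (IntermediateField.mem_adjoin_simple_self E (σ u0))
      (fun c => by
        have h1 := hσ2 c
        change σ (algebraMap (LaurentSeries k) K' c) ∈ IntermediateField.adjoin E {σ u0}
        rw [h1]
        exact IntermediateField.algebraMap_mem _ _) z
  set g : K' →+* IntermediateField.adjoin E {σ u0} :=
    σ.toRingHom.codRestrict (IntermediateField.adjoin E {σ u0}).toSubfield hmem with hg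
  refine ⟨σ u0, a, m₁, m', hpm₁, hpm', ?_, ⟨algebraMap E1 E c1, ?_⟩, ?_⟩
  · rw [← hmeq, ← map_pow, hu0m, hσ2]
  · rw [← map_pow, hc1, hσ1]
  · have h1 := Pool.Agent.H86.IX.CYC.re_map g _ hRE
    have h2 : ∀ z : E1, g (algebraMap E1 K' z) =
        algebraMap E (IntermediateField.adjoin E {σ u0}) (algebraMap E1 E z) := by
      intro z
      apply Subtype.ext
      exact hσ1 z
    have h3 : (fun l => map g (map (algebraMap E1 K') (F1 l))) =
        fun l => map (algebraMap E (IntermediateField.adjoin E {σ u0})) (F l) := by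
      funext l
      have h6 : g.comp (algebraMap E1 K') =
          (algebraMap E (IntermediateField.adjoin E {σ u0})).comp (algebraMap E1 E) :=
        RingHom.ext h2
      rw [← hFm l, MvPolynomial.map_map, MvPolynomial.map_map, h6]
    have h4 : (fun v => g (algebraMap E1 K' (x1 v))) =
        fun v => algebraMap E (IntermediateField.adjoin E {σ u0}) (x v) := by
      funext v
      rw [h2, hxm]
    have h5 : (fun v => g (algebraMap E1 K' (y1 v))) =
        fun v => algebraMap E (IntermediateField.adjoin E {σ u0}) (y v) := by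
      funext v
      rw [h2, hym]
    rw [h3, h4, h5] at h1
    exact h1

end Pool.Agent.H14.IX
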